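import Pool.Agent.Q145.PQ.Stm
import Pool.Agent.Q58.SZ.Law2

/-!
# Project PQ (helper145), job LAWP: replacement of the coordinates

Adapted from `Pool/Agent/Q177/LQ/LAWQ.lean`.
-/

set_option autoImplicit false

namespace Pool.Agent.Q149.PQ

open Finset Filter Pool.Agent.Q145.SZ Pool.Agent.Q145.PQ
open Pool.Agent.Q145.LQ (ev CC CRTQ GQ)
open Pool.Agent.Q58.SZ (mem_Us cs_abs)

section

variable {W : ℕ} [NeZero W]

theorem mem_GP {K : ℕ} {q : Fin K → Polynomial ℤ} {b : Fin K → ZMod W} {x : ZMod W} :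
    x ∈ GP q b ↔ IsUnit x ∧ ∀ i, IsUnit (ev (q i) x + b i) := by
  classical
  unfold GP
  simp

/-- the polynomials without the `j`-th -/
def rem {k : ℕ} (j : Fin (k + 1)) (q : Fin (k + 1) → Polynomial ℤ) : Fin k → Polynomial ℤ := fun i => q (j.succAbove i)

theorem mem_GP_insertNth {k : ℕ} (j : Fin (k + 1)) (q : Fin (k + 1) → Polynomial ℤ) (β : ZMod W) (c : Fin k → ZMod W)
    (x : ZMod W) : x ∈ GP q (Fin.insertNth j β c : Fin (k + 1) → ZMod W) ↔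
      IsUnit (ev (q j) x + β) ∧ x ∈ GP (rem j q) c := by
  rw [mem_GP, mem_GP, Fin.forall_iff_succAbove j]
  unfold rem
  simp only [Fin.insertNth_apply_same, Fin.insertNth_apply_succAbove]
  tauto

theorem mem_GP_cons {k : ℕ} (v : Polynomial ℤ) (q : Fin k → Polynomial ℤ) (β : ZMod W) (c : Fin k → ZMod W) (x : ZMod W) :
    x ∈ GP (Fin.cons v q : Fin (k + 1) → Polynomial ℤ) (Fin.cons β c) ↔ IsUnit (ev v x + β) ∧ x ∈ GP q c := by
  rw [mem_GP, mem_GP, Fin.forall_fin_succ]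
  simp only [Fin.cons_zero, Fin.cons_succ]
  tauto

theorem GP_insertNth {k : ℕ} (j : Fin (k + 1)) (q : Fin (k + 1) → Polynomial ℤ) (β : ZMod W) (c : Fin k → ZMod W) :
    GP q (Fin.insertNth j β c : Fin (k + 1) → ZMod W) =
      GP (Fin.cons (q j) (rem j q) : Fin (k + 1) → Polynomial ℤ) (Fin.cons β c) := by
  ext x
  rw [mem_GP_insertNth, mem_GP_cons]

/-- the local inequality with the extra condition that the class is a unit -/
def CRTP (d : ℕ) (C : ℝ) : Prop := ∀ (W : ℕ) [NeZero W], Squarefree W → ∀ (k : ℕ) (q : Fin k → Polynomial ℤ) (c : Fin k → ZMod W) (v : Polynomial ℤ) (n m : ZMod W),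
  v.natDegree ≤ d → n ∈ GP q c → m ∈ GP q c →
  ((Us (ev v n) (ev v m)).card : ℝ) * ∑ β ∈ Us (ev v n) (ev v m), (((GP (Fin.cons v q : Fin (k + 1) → Polynomial ℤ) (Fin.cons β c)).card : ℝ) ^ 4)⁻¹ ≤
    CC C W * (∑ β ∈ Us (ev v n) (ev v m), (((GP (Fin.cons v q : Fin (k + 1) → Polynomial ℤ) (Fin.cons β c)).card : ℝ) ^ 2)⁻¹) ^ 2

theorem GP_eq_GQ {K : ℕ} (q : Fin K → Polynomial ℤ) (b : Fin K → ZMod W) :
    GP q b = GQ (Fin.cons Polynomial.X q : Fin (K + 1) → Polynomial ℤ) (Fin.cons 0 b) := by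
  classical
  ext x
  rw [mem_GP]
  unfold GQ
  rw [Finset.mem_filter, Fin.forall_fin_succ]
  simp only [Fin.cons_zero, Fin.cons_succ, Finset.mem_univ, true_and, add_zero]
  unfold ev
  rw [Polynomial.aeval_X]

theorem GP_cons_eq_GQ {K : ℕ} (v : Polynomial ℤ) (q : Fin K → Polynomial ℤ) (β : ZMod W) (b : Fin K → ZMod W) :
    GP (Fin.cons v q : Fin (K + 1) → Polynomial ℤ) (Fin.cons β b) =
      GQ (Fin.cons v (Fin.cons Polynomial.X q : Fin (K + 1) → Polynomial ℤ) : Fin (K + 2) → Polynomial ℤ)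
        (Fin.cons β (Fin.cons 0 b : Fin (K + 1) → ZMod W)) := by
  classical
  ext x
  rw [mem_GP_cons, GP_eq_GQ]
  unfold GQ
  rw [Finset.mem_filter, Finset.mem_filter, Fin.forall_fin_succ (n := K + 1)]
  simp only [Fin.cons_zero, Fin.cons_succ, Finset.mem_univ, true_and]

theorem CC_nonneg {C : ℝ} (hC : 0 < C) (W : ℕ) : 0 ≤ CC C W := by
  unfold CC
  exact Finset.prod_nonneg fun p _ => by positivity

/-- the weights of one coordinate -/
theorem w2_insert {k : ℕ} (j : Fin (k + 1)) (u : Fin (k + 1) → Polynomial ℤ) (n m : ZMod W) (c : Fin k → ZMod W)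
    (hn : n ∈ GP (rem j u) c) (hm : m ∈ GP (rem j u) c) (β : ZMod W) :
    w2p u n m (Fin.insertNth j β c : Fin (k + 1) → ZMod W) =
      if β ∈ Us (ev (u j) n) (ev (u j) m) then
        (((GP (Fin.cons (u j) (rem j u) : Fin (k + 1) → Polynomial ℤ) (Fin.cons β c)).card : ℝ) ^ 2)⁻¹ else 0 := by
  classical
  unfold w2p
  simp only [GP_insertNth, mem_GP_cons, hn, hm, and_true, mem_Us]

theorem w2_insert_zero {k : ℕ} (j : Fin (k + 1)) (u : Fin (k + 1) → Polynomial ℤ) (n m : ZMod W) (c : Fin k → ZMod W)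
    (h : ¬ (n ∈ GP (rem j u) c ∧ m ∈ GP (rem j u) c)) (β : ZMod W) :
    w2p u n m (Fin.insertNth j β c : Fin (k + 1) → ZMod W) = 0 := by
  classical
  unfold w2p
  rw [if_neg]
  rw [mem_GP_insertNth, mem_GP_insertNth]
  tauto

/-- one coordinate -/
theorem one_coord {d : ℕ} {C : ℝ} (hC0 : 0 < C) (hC : CRTP d C) (hW : Squarefree W) {k : ℕ} (j : Fin (k + 1)) (u : Fin (k + 1) → Polynomial ℤ)
    (hd : ∀ i, (u i).natDegree ≤ d) (n m : ZMod W) (c : Fin k → ZMod W) (hn : n ∈ GP (rem j u) c) (hm : m ∈ GP (rem j u) c) (η : ZMod W → ℝ)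
    (δ : ℝ) (hδ : 0 ≤ δ)
    (h2 : ∑ β ∈ Us (ev (u j) n) (ev (u j) m), η β ^ 2 ≤ δ ^ 2 * (Us (ev (u j) n) (ev (u j) m)).card) :
    ∑ β, w2p u n m (Fin.insertNth j β c : Fin (k + 1) → ZMod W) * η β ≤
      δ * √(CC C W) * ∑ β, w2p u n m (Fin.insertNth j β c : Fin (k + 1) → ZMod W) := by
  classical
  have e0 : ∑ β, w2p u n m (Fin.insertNth j β c : Fin (k + 1) → ZMod W) * η β =
      ∑ β ∈ Us (ev (u j) n) (ev (u j) m),
        (((GP (Fin.cons (u j) (rem j u) : Fin (k + 1) → Polynomial ℤ) (Fin.cons β c)).card : ℝ) ^ 2)⁻¹ * η β := by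
    simp only [w2_insert j u n m c hn hm, ite_mul, zero_mul]
    rw [Finset.sum_ite_mem, Finset.univ_inter]
  have e1 : ∑ β, w2p u n m (Fin.insertNth j β c : Fin (k + 1) → ZMod W) =
      ∑ β ∈ Us (ev (u j) n) (ev (u j) m),
        (((GP (Fin.cons (u j) (rem j u) : Fin (k + 1) → Polynomial ℤ) (Fin.cons β c)).card : ℝ) ^ 2)⁻¹ := by
    simp only [w2_insert j u n m c hn hm]
    rw [Finset.sum_ite_mem, Finset.univ_inter]
  rw [e0, e1]
  have hc := hC W hW k (rem j u) c (u j) n m (hd j) hn hm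
  refine cs_abs (Us (ev (u j) n) (ev (u j) m)) _ η (CC C W) δ (Us (ev (u j) n) (ev (u j) m)).card (fun β _ => by positivity)
    (CC_nonneg hC0 W) hδ ?_ h2
  have e2 : ∀ β : ZMod W,
      ((((GP (Fin.cons (u j) (rem j u) : Fin (k + 1) → Polynomial ℤ) (Fin.cons β c)).card : ℝ) ^ 2)⁻¹) ^ 2 =
      (((GP (Fin.cons (u j) (rem j u) : Fin (k + 1) → Polynomial ℤ) (Fin.cons β c)).card : ℝ) ^ 4)⁻¹ := by
    intro β
    rw [inv_pow, ← pow_mul]
  simp only [e2]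
  exact hc

theorem sum_insert {k : ℕ} (j : Fin (k + 1)) (F : (Fin (k + 1) → ZMod W) → ℝ) : ∑ b, F b =
      ∑ c : Fin k → ZMod W, ∑ β : ZMod W, F (Fin.insertNth j β c) := by
  rw [← (Fin.insertNthEquiv (fun _ => ZMod W) j).sum_comp F, Fintype.sum_prod_type,
    Finset.sum_comm]
  rfl

/-- products over some of the coordinates -/
noncomputable def VT {K : ℕ} (u : Fin K → Polynomial ℤ) (n m : ZMod W) (η : Fin K → ZMod W → ℝ) (T : Finset (Fin K)) : ℝ :=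
  ∑ b : Fin K → ZMod W, w2p u n m b * ∏ i ∈ T, (1 + η i (b i))

theorem VT_insert {d : ℕ} {C : ℝ} (hC0 : 0 < C) (hC : CRTP d C) (hW : Squarefree W) {K : ℕ} (u : Fin K → Polynomial ℤ)
    (hd : ∀ i, (u i).natDegree ≤ d) (n m : ZMod W)
    (η : Fin K → ZMod W → ℝ) (δ : ℝ)
    (hδ : 0 ≤ δ) (h1 : ∀ i, ∀ β ∈ Us (ev (u i) n) (ev (u i) m), -1 ≤ η i β)
    (h2 : ∀ i, ∑ β ∈ Us (ev (u i) n) (ev (u i) m), η i β ^ 2 ≤ δ ^ 2 * (Us (ev (u i) n) (ev (u i) m)).card)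
    (T : Finset (Fin K)) (j : Fin K)
    (hj : j ∉ T) : VT u n m η (insert j T) ≤ (1 + δ * √(CC C W)) * VT u n m η T := by
  classical
  obtain ⟨k, rfl⟩ : ∃ k, K = k + 1 := ⟨K - 1, by have := j.pos; omega⟩
  unfold VT
  rw [sum_insert j, sum_insert j, Finset.mul_sum]
  refine Finset.sum_le_sum fun c _ => ?_
  have hP : ∀ β : ZMod W, ∏ i ∈ T, (1 + η i ((Fin.insertNth j β c : Fin (k + 1) → ZMod W) i)) =
      ∏ i ∈ T, (1 + η i ((Fin.insertNth j 0 c : Fin (k + 1) → ZMod W) i)) := by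
    intro β
    refine Finset.prod_congr rfl fun i hi => ?_
    have hij : i ≠ j := fun h => hj (h ▸ hi)
    obtain ⟨i', rfl⟩ := Fin.exists_succAbove_eq hij
    simp
  set P := ∏ i ∈ T, (1 + η i ((Fin.insertNth j 0 c : Fin (k + 1) → ZMod W) i)) with hPdef
  have e2 : ∀ β : ZMod W, ∏ i ∈ insert j T,
      (1 + η i ((Fin.insertNth j β c : Fin (k + 1) → ZMod W) i)) = (1 + η j β) * P := by
    intro β
    rw [Finset.prod_insert hj, hP, Fin.insertNth_apply_same]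
  simp only [e2, hP]
  by_cases h : n ∈ GP (rem j u) c ∧ m ∈ GP (rem j u) c
  · have hP0 : 0 ≤ P := by
      rw [hPdef]
      refine Finset.prod_nonneg fun i hi => ?_
      have hij : i ≠ j := fun h => hj (h ▸ hi)
      obtain ⟨i', rfl⟩ := Fin.exists_succAbove_eq hij
      rw [Fin.insertNth_apply_succAbove]
      have := h1 (j.succAbove i') (c i') (mem_Us.2 ⟨(mem_GP.1 h.1).2 i', (mem_GP.1 h.2).2 i'⟩)
      linarith
    have h3 := one_coord hC0 hC hW j u hd n m c h.1 h.2 (η j) δ hδ (h2 j)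
    have e3 : ∀ β : ZMod W, w2p u n m (Fin.insertNth j β c : Fin (k + 1) → ZMod W) *
        ((1 + η j β) * P) = P * (w2p u n m (Fin.insertNth j β c : Fin (k + 1) → ZMod W) +
          w2p u n m (Fin.insertNth j β c : Fin (k + 1) → ZMod W) * η j β) := fun β => by ring
    have e4 : ∀ β : ZMod W, w2p u n m (Fin.insertNth j β c : Fin (k + 1) → ZMod W) * P =
        P * w2p u n m (Fin.insertNth j β c : Fin (k + 1) → ZMod W) := fun β => by ring
    simp only [e3, e4, ← Finset.mul_sum, Finset.sum_add_distrib]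
    nlinarith [mul_le_mul_of_nonneg_left h3 hP0]
  · simp only [w2_insert_zero j u n m c h, zero_mul, Finset.sum_const_zero, mul_zero, le_refl]

theorem VT_le {d : ℕ} {C : ℝ} (hC0 : 0 < C) (hC : CRTP d C) (hW : Squarefree W) {K : ℕ} (u : Fin K → Polynomial ℤ)
    (hd : ∀ i, (u i).natDegree ≤ d) (n m : ZMod W)
    (η : Fin K → ZMod W → ℝ) (δ : ℝ)
    (hδ : 0 ≤ δ) (h1 : ∀ i, ∀ β ∈ Us (ev (u i) n) (ev (u i) m), -1 ≤ η i β)
    (h2 : ∀ i, ∑ β ∈ Us (ev (u i) n) (ev (u i) m), η i β ^ 2 ≤ δ ^ 2 * (Us (ev (u i) n) (ev (u i) m)).card)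
    (T : Finset (Fin K)) :
    VT u n m η T ≤ (1 + δ * √(CC C W)) ^ T.card * ∑ b : Fin K → ZMod W, w2p u n m b := by
  classical
  induction T using Finset.induction_on with
  | empty => simp [VT]
  | insert j T hj ih =>
    rw [Finset.card_insert_of_notMem hj, pow_succ']
    have hpos : 0 ≤ 1 + δ * √(CC C W) := by positivity
    calc VT u n m η (insert j T) ≤ (1 + δ * √(CC C W)) * VT u n m η T :=
          VT_insert hC0 hC hW u hd n m η δ hδ h1 h2 T j hj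
      _ ≤ (1 + δ * √(CC C W)) * ((1 + δ * √(CC C W)) ^ T.card *
          ∑ b : Fin K → ZMod W, w2p u n m b) := mul_le_mul_of_nonneg_left ih hpos
      _ = _ := by ring

end

/-- second part -/
theorem t_LAW2 {d : ℕ} {C : ℝ} (hC0 : 0 < C) (hC : CRTP d C) : LAW2P d C := by
  intro W _ hW K u hd n m η δ hδ h1 h2
  have := VT_le hC0 hC hW u hd n m η δ hδ h1 h2 (Finset.univ : Finset (Fin K))
  rw [Finset.card_univ, Fintype.card_fin] at this
  exact this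

/-! ### the first power -/

/-- power sums -/
theorem pow_sums {ι : Type*} (s : Finset ι) (w : ι → ℝ) (N C : ℝ) (hw : ∀ i ∈ s, 0 < w i) (hs : s.Nonempty)
    (hN : 0 ≤ N) (h : N * ∑ i ∈ s, w i ^ 4 ≤ C * (∑ i ∈ s, w i ^ 2) ^ 2) :
    N * ∑ i ∈ s, w i ^ 2 ≤ C * (∑ i ∈ s, w i) ^ 2 := by
  obtain ⟨S1, hS1⟩ : ∃ S1, S1 = ∑ i ∈ s, w i := ⟨_, rfl⟩
  obtain ⟨S2, hS2⟩ : ∃ S2, S2 = ∑ i ∈ s, w i ^ 2 := ⟨_, rfl⟩
  obtain ⟨S3, hS3⟩ : ∃ S3, S3 = ∑ i ∈ s, w i ^ 3 := ⟨_, rfl⟩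
  obtain ⟨S4, hS4⟩ : ∃ S4, S4 = ∑ i ∈ s, w i ^ 4 := ⟨_, rfl⟩
  have p2 : 0 < S2 := by
    rw [hS2]
    exact Finset.sum_pos (fun i hi => pow_pos (hw i hi) 2) hs
  have p3 : 0 < S3 := by
    rw [hS3]
    exact Finset.sum_pos (fun i hi => pow_pos (hw i hi) 3) hs
  have p1 : 0 < S1 := by
    rw [hS1]
    exact Finset.sum_pos (fun i hi => hw i hi) hs
  have c1 : S2 ^ 2 ≤ S1 * S3 := by
    rw [hS1, hS2, hS3]
    have h1 := Finset.sum_mul_sq_le_sq_mul_sq s (fun i => √(w i)) (fun i => √(w i) * w i)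
    have e1 : ∑ i ∈ s, √(w i) * (√(w i) * w i) = ∑ i ∈ s, w i ^ 2 := by
      refine Finset.sum_congr rfl fun i hi => ?_
      rw [← mul_assoc, Real.mul_self_sqrt (hw i hi).le]
      ring
    have e2 : ∑ i ∈ s, √(w i) ^ 2 = ∑ i ∈ s, w i :=
      Finset.sum_congr rfl fun i hi => Real.sq_sqrt (hw i hi).le
    have e3 : ∑ i ∈ s, (√(w i) * w i) ^ 2 = ∑ i ∈ s, w i ^ 3 := by
      refine Finset.sum_congr rfl fun i hi => ?_
      rw [mul_pow, Real.sq_sqrt (hw i hi).le]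
      ring
    rw [e1, e2, e3] at h1
    exact h1
  have c2 : S3 ^ 2 ≤ S2 * S4 := by
    rw [hS2, hS3, hS4]
    have h1 := Finset.sum_mul_sq_le_sq_mul_sq s (fun i => w i) (fun i => w i ^ 2)
    have e1 : ∑ i ∈ s, w i * w i ^ 2 = ∑ i ∈ s, w i ^ 3 :=
      Finset.sum_congr rfl fun i hi => by ring
    have e3 : ∑ i ∈ s, (w i ^ 2) ^ 2 = ∑ i ∈ s, w i ^ 4 :=
      Finset.sum_congr rfl fun i hi => by ring
    rw [e1, e3] at h1
    exact h1
  rw [← hS2, ← hS1]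
  rw [← hS2, ← hS4] at h
  -- S2 ^ 3 ≤ S1 ^ 2 * S4
  have c3 : S2 ^ 3 ≤ S1 ^ 2 * S4 := by
    have h1 : S2 ^ 4 ≤ S1 ^ 2 * S3 ^ 2 := by
      calc S2 ^ 4 = (S2 ^ 2) ^ 2 := by ring
        _ ≤ (S1 * S3) ^ 2 := pow_le_pow_left₀ (sq_nonneg _) c1 2
        _ = S1 ^ 2 * S3 ^ 2 := by ring
    have h2 : S2 * S2 ^ 3 ≤ S2 * (S1 ^ 2 * S4) := by
      calc S2 * S2 ^ 3 = S2 ^ 4 := by ring
        _ ≤ S1 ^ 2 * S3 ^ 2 := h1
        _ ≤ S1 ^ 2 * (S2 * S4) := mul_le_mul_of_nonneg_left c2 (sq_nonneg _)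
        _ = _ := by ring
    exact le_of_mul_le_mul_left h2 p2
  have c4 : S2 ^ 2 * (N * S2) ≤ S2 ^ 2 * (C * S1 ^ 2) := by
    calc S2 ^ 2 * (N * S2) = N * S2 ^ 3 := by ring
      _ ≤ N * (S1 ^ 2 * S4) := mul_le_mul_of_nonneg_left c3 hN
      _ = S1 ^ 2 * (N * S4) := by ring
      _ ≤ S1 ^ 2 * (C * S2 ^ 2) := mul_le_mul_of_nonneg_left h (sq_nonneg _)
      _ = _ := by ring
  exact le_of_mul_le_mul_left c4 (pow_pos p2 2)

/-- first part -/
theorem t_LAW1 {d : ℕ} {C : ℝ} (hC0 : 0 < C) (hC : CRTP d C) : LAW1P d C := by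
  classical
  intro W _ hW K u hd n i η δ hδ h2
  obtain ⟨k, rfl⟩ : ∃ k, K = k + 1 := ⟨K - 1, by have := i.pos; omega⟩
  rw [sum_insert i, sum_insert i, Finset.mul_sum]
  refine Finset.sum_le_sum fun c _ => ?_
  simp only [Fin.insertNth_apply_same]
  by_cases h : n ∈ GP (rem i u) c
  · have hw : ∀ β : ZMod W, w1p u n (Fin.insertNth i β c : Fin (k + 1) → ZMod W) =
        if β ∈ Us (ev (u i) n) (ev (u i) n) then
          ((GP (Fin.cons (u i) (rem i u) : Fin (k + 1) → Polynomial ℤ) (Fin.cons β c)).card : ℝ)⁻¹ else 0 := by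
      intro β
      unfold w1p
      simp only [GP_insertNth, mem_GP_cons, h, and_true, mem_Us, and_self]
    have e0 : ∑ β, w1p u n (Fin.insertNth i β c : Fin (k + 1) → ZMod W) * η β =
        ∑ β ∈ Us (ev (u i) n) (ev (u i) n),
          ((GP (Fin.cons (u i) (rem i u) : Fin (k + 1) → Polynomial ℤ) (Fin.cons β c)).card : ℝ)⁻¹ * η β := by
      simp only [hw, ite_mul, zero_mul]
      rw [Finset.sum_ite_mem, Finset.univ_inter]
    have e1 : ∑ β, w1p u n (Fin.insertNth i β c : Fin (k + 1) → ZMod W) =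
        ∑ β ∈ Us (ev (u i) n) (ev (u i) n),
          ((GP (Fin.cons (u i) (rem i u) : Fin (k + 1) → Polynomial ℤ) (Fin.cons β c)).card : ℝ)⁻¹ := by
      simp only [hw]
      rw [Finset.sum_ite_mem, Finset.univ_inter]
    rw [e0, e1]
    rcases (Us (ev (u i) n) (ev (u i) n)).eq_empty_or_nonempty with he | hne
    · rw [he]
      simp
    have hpos : ∀ β ∈ Us (ev (u i) n) (ev (u i) n),
        0 < ((GP (Fin.cons (u i) (rem i u) : Fin (k + 1) → Polynomial ℤ) (Fin.cons β c)).card : ℝ)⁻¹ := by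
      intro β hβ
      rw [inv_pos, Nat.cast_pos, Finset.card_pos]
      refine ⟨n, ?_⟩
      rw [mem_GP_cons]
      exact ⟨(mem_Us.1 hβ).1, h⟩
    have hc := hC W hW k (rem i u) c (u i) n n (hd i) h h
    refine cs_abs (Us (ev (u i) n) (ev (u i) n)) _ η (CC C W) δ (Us (ev (u i) n) (ev (u i) n)).card
      (fun β hβ => (hpos β hβ).le) (CC_nonneg hC0 W) hδ ?_ h2
    refine pow_sums _ _ _ _ hpos hne (Nat.cast_nonneg _) ?_
    simp only [inv_pow]
    exact hc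
  · have hw : ∀ β : ZMod W, w1p u n (Fin.insertNth i β c : Fin (k + 1) → ZMod W) = 0 := by
      intro β
      unfold w1p
      rw [if_neg]
      rw [mem_GP_insertNth]
      tauto
    simp only [hw, zero_mul, Finset.sum_const_zero, mul_zero, le_refl]

theorem crtp {d : ℕ} {C : ℝ} (h : CRTQ d C) : CRTP d C := by
  intro W _ hW k q c v n m hv hn hm
  rw [GP_eq_GQ] at hn hm
  simp only [GP_cons_eq_GQ]
  exact h W hW (k + 1) _ _ v n m hv hn hm

/-- job LAWP -/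
theorem t_LAWP : S_LAWP := fun _ _ hC0 hC => ⟨t_LAW1 hC0 (crtp hC), t_LAW2 hC0 (crtp hC)⟩

end Pool.Agent.Q149.PQ
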