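import Pool.Agent.Q145.PQ.Stm

/-!
# Project PQ (helper145), job MOM2P: the second moment

Adapted from `Pool/Agent/Q213/LS/Mom2.lean` and `Pool/Agent/Q124/LQ/Mom2q.lean`.
-/

set_option autoImplicit false
set_option linter.unusedSectionVars false

namespace Pool.Agent.Q149.PQ

open Finset Filter Pool.Agent.Q145.SZ Pool.Agent.Q145.PQ
open Pool.Agent.Q145.LS (uni th)
open Pool.Agent.Q145.LQ (vq ev Sys SbQ JP CC CRTQ GQ w0)

namespace Mom2

section

variable {W : ℕ} [NeZero W]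

lemma B2_nonneg (X n m : ℕ) (β : ZMod W) : 0 ≤ B2 X n m β := by
  unfold B2
  exact div_nonneg (Finset.sum_nonneg fun s _ => mul_nonneg (wt_nonneg _) (wt_nonneg _))
    (Nat.cast_nonneg _)

lemma one_le_vv : 1 ≤ vv W := by
  unfold vv
  have h1 : 0 < Nat.totient W := Nat.totient_pos.2 (Nat.pos_of_ne_zero (NeZero.ne W))
  rw [le_div_iff₀ (by exact_mod_cast h1), one_mul]
  exact_mod_cast Nat.totient_le W

lemma w2p_nonneg {K : ℕ} (q : Fin K → Polynomial ℤ) (n m : ZMod W) (b : Fin K → ZMod W) :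
    0 ≤ w2p q n m b := by
  unfold w2p
  split_ifs
  · positivity
  · exact le_rfl

lemma mem_GP {K : ℕ} {q : Fin K → Polynomial ℤ} {b : Fin K → ZMod W} {x : ZMod W} :
    x ∈ GP q b ↔ IsUnit x ∧ ∀ i, IsUnit (ev (q i) x + b i) := by
  unfold GP
  simp

lemma mem_Us' {n m β : ZMod W} : β ∈ Us n m ↔ IsUnit (n + β) ∧ IsUnit (m + β) := by
  unfold Us
  simp

/-- the primes larger than `W` are units -/
lemma unit_of_wt {Y n : ℕ} (hWX : W ≤ Y) (hn : n ∈ Ioc Y (2 * Y)) (h : wt n ≠ 0) :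
    IsUnit (n : ZMod W) := by
  unfold wt at h
  have hp : n.Prime := by
    by_contra hp
    exact h (if_neg hp)
  rw [ZMod.isUnit_iff_coprime]
  rw [Nat.Prime.coprime_iff_not_dvd hp]
  intro hd
  have := Nat.le_of_dvd (Nat.pos_of_ne_zero (NeZero.ne W)) hd
  rw [Finset.mem_Ioc] at hn
  omega

/-- the second moment over a product of classes -/
lemma sq_sum {K : ℕ} (Y : ℕ) (H : Fin K → ℕ) (q : Fin K → Polynomial ℤ) (b : Fin K → ZMod W) :
    (∑ s ∈ SbQ H b, wcP Y q s ^ 2) / (SbQ H b).card =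
      ∑ n ∈ Ioc Y (2 * Y), ∑ m ∈ Ioc Y (2 * Y), wt n * wt m * ∏ i, B2 (H i) (vq (q i) n) (vq (q i) m) (b i) := by
  have h1 : ∀ s : Fin K → ℕ, wcP Y q s ^ 2 = ∑ n ∈ Ioc Y (2 * Y), ∑ m ∈ Ioc Y (2 * Y),
      wt n * wt m * ∏ i, (wt (vq (q i) n + s i) * wt (vq (q i) m + s i)) := by
    intro s
    unfold wcP
    rw [sq, Finset.sum_mul_sum]
    refine Finset.sum_congr rfl fun n _ => Finset.sum_congr rfl fun m _ => ?_
    rw [Finset.prod_mul_distrib]
    ring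
  have h2 : ∑ s ∈ SbQ H b, wcP Y q s ^ 2 = ∑ n ∈ Ioc Y (2 * Y), ∑ m ∈ Ioc Y (2 * Y),
      wt n * wt m * ∏ i, ∑ t ∈ cls (H i) (b i), wt (vq (q i) n + t) * wt (vq (q i) m + t) := by
    simp only [h1]
    rw [Finset.sum_comm]
    refine Finset.sum_congr rfl fun n _ => ?_
    rw [Finset.sum_comm]
    refine Finset.sum_congr rfl fun m _ => ?_
    rw [← Finset.mul_sum, Finset.prod_univ_sum]
    rfl
  have h3 : ((SbQ H b).card : ℝ) = ∏ i, ((cls (H i) (b i)).card : ℝ) := by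
    unfold SbQ
    rw [Fintype.card_piFinset]
    push_cast
    rfl
  rw [h2, Finset.sum_div]
  refine Finset.sum_congr rfl fun n _ => ?_
  rw [Finset.sum_div]
  refine Finset.sum_congr rfl fun m _ => ?_
  rw [h3, mul_div_assoc, ← Finset.prod_div_distrib]
  rfl

/-- the key identity -/
lemma term_eq {K : ℕ} {Y : ℕ} (hX : 0 < Y) (hWX : W ≤ Y) (H : Fin K → ℕ) {n m : ℕ} (hn : n ∈ Ioc Y (2 * Y))
    (hm : m ∈ Ioc Y (2 * Y)) (q : Fin K → Polynomial ℤ) (b : Fin K → ZMod W)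
    (h2' : ∀ i, ∀ β : ZMod W, β ∉ Us (ev (q i) (n : ZMod W)) (ev (q i) (m : ZMod W)) →
      B2 (H i) (vq (q i) n) (vq (q i) m) β = 0) :
    (wt n * wt m * ∏ i, B2 (H i) (vq (q i) n) (vq (q i) m) (b i)) / MbP Y q b ^ 2 =
      ((W : ℝ) / (Y * vv W)) ^ 2 * (wt n * wt m *
      (w2p q (n : ZMod W) (m : ZMod W) b * ∏ i, (B2 (H i) (vq (q i) n) (vq (q i) m) (b i) / vv W ^ 2))) := by
  classical
  by_cases h : (n : ZMod W) ∈ GP q b ∧ (m : ZMod W) ∈ GP q b
  · have hg : (0 : ℝ) < (GP q b).card := by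
      exact_mod_cast Finset.card_pos.2 ⟨_, h.1⟩
    have hv : (0 : ℝ) < vv W := lt_of_lt_of_le one_pos one_le_vv
    have hW : (0 : ℝ) < W := by exact_mod_cast Nat.pos_of_ne_zero (NeZero.ne W)
    have hX' : (0 : ℝ) < Y := by exact_mod_cast hX
    have e1 : w2p q (n : ZMod W) (m : ZMod W) b =
        (((GP q b).card : ℝ) ^ 2)⁻¹ := by
      unfold w2p
      rw [if_pos h]
    rw [e1, Finset.prod_div_distrib]
    have e2 : ∏ _i : Fin K, vv W ^ 2 = (vv W ^ K) ^ 2 := by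
      rw [Finset.prod_const, Finset.card_univ, Fintype.card_fin, ← pow_mul, ← pow_mul, mul_comm]
    rw [e2]
    unfold MbP
    field_simp
    ring
  · have e1 : w2p q (n : ZMod W) (m : ZMod W) b = 0 := by
      unfold w2p
      rw [if_neg h]
    have e2 : wt n * wt m * ∏ i, B2 (H i) (vq (q i) n) (vq (q i) m) (b i) = 0 := by
      by_cases hwn : wt n = 0
      · rw [hwn]; ring
      by_cases hwm : wt m = 0
      · rw [hwm]; ring
      have un := unit_of_wt hWX hn hwn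
      have um' := unit_of_wt hWX hm hwm
      have : ∃ i, b i ∉ Us (ev (q i) (n : ZMod W)) (ev (q i) (m : ZMod W)) := by
        by_contra hcon
        push Not at hcon
        exact h ⟨mem_GP.2 ⟨un, fun i => (mem_Us'.1 (hcon i)).1⟩,
          mem_GP.2 ⟨um', fun i => (mem_Us'.1 (hcon i)).2⟩⟩
      obtain ⟨i, hi⟩ := this
      rw [Finset.prod_eq_zero (Finset.mem_univ i) (h2' i _ hi), mul_zero]
    rw [e1, e2]
    simp

/-- the total weight -/
noncomputable def ws {K : ℕ} (q : Fin K → Polynomial ℤ) (c d : ZMod W) : ℝ :=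
  ∑ b : Fin K → ZMod W, w2p q c d b

lemma ws_nonneg {K : ℕ} (q : Fin K → Polynomial ℤ) (c d : ZMod W) : 0 ≤ ws q c d :=
  Finset.sum_nonneg fun b _ => w2p_nonneg q c d b

/-- generic bound of a product -/
lemma Q_le (hU : S_UNIP) {K : ℕ} (H : Fin K → ℕ) (n m : ℕ) (q : Fin K → Polynomial ℤ) (hsq : Sq q)
    (c d : ZMod W) (D : ℝ) (S : Fin K → ℝ) (T : ℝ) (hD : 0 ≤ D) (hS : ∀ i, 0 ≤ S i)
    (hST : ∀ i, S i ≤ T)
    (hb : ∀ i, ∀ β : ZMod W, B2 (H i) (vq (q i) n) (vq (q i) m) β / vv W ^ 2 ≤ D * S i) :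
    ∑ b : Fin K → ZMod W, w2p q c d b * ∏ i, (B2 (H i) (vq (q i) n) (vq (q i) m) (b i) / vv W ^ 2) ≤
      D ^ K * T ^ K * (AdP W q).card := by
  have h1 : ∀ b : Fin K → ZMod W, ∏ i, (B2 (H i) (vq (q i) n) (vq (q i) m) (b i) / vv W ^ 2) ≤ D ^ K * T ^ K := by
    intro b
    calc ∏ i, (B2 (H i) (vq (q i) n) (vq (q i) m) (b i) / vv W ^ 2) ≤ ∏ _i : Fin K, (D * T) :=
          Finset.prod_le_prod (fun i _ => div_nonneg (B2_nonneg _ _ _ _) (sq_nonneg _))
            fun i _ => (hb i (b i)).trans (mul_le_mul_of_nonneg_left (hST i) hD)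
      _ = D ^ K * T ^ K := by simp [mul_pow]
  have hDT : 0 ≤ D ^ K * T ^ K := by
    rcases Nat.eq_zero_or_pos K with h0 | h0
    · subst h0; simp
    · exact mul_nonneg (pow_nonneg hD K) (pow_nonneg ((hS ⟨0, h0⟩).trans (hST ⟨0, h0⟩)) K)
  calc ∑ b : Fin K → ZMod W, w2p q c d b * ∏ i, (B2 (H i) (vq (q i) n) (vq (q i) m) (b i) / vv W ^ 2)
      ≤ ∑ b : Fin K → ZMod W, w2p q c d b * (D ^ K * T ^ K) :=
        Finset.sum_le_sum fun b _ => mul_le_mul_of_nonneg_left (h1 b) (w2p_nonneg q c d b)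
    _ = D ^ K * T ^ K * ∑ b : Fin K → ZMod W, w2p q c d b := by
      rw [← Finset.sum_mul, mul_comm]
    _ ≤ D ^ K * T ^ K * (AdP W q).card :=
      mul_le_mul_of_nonneg_left ((hU W K q hsq).2.2.2.2 c d) hDT

/-- pairs in general position -/
lemma Q_le' {d : ℕ} {C : ℝ} (hL : LAW2P d C) (hW : Squarefree W) {K : ℕ} (H : Fin K → ℕ) (q : Fin K → Polynomial ℤ)
    (hq : ∀ i, (q i).natDegree ≤ d) (n m : ℕ)
    (S : Fin K → ℝ) (T ε₂ : ℝ) (hS : ∀ i, 0 < S i) (hST : ∀ i, S i ≤ T) (hε : 0 ≤ ε₂)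
    (h : ∀ i, ∑ β ∈ Us (ev (q i) (n : ZMod W)) (ev (q i) (m : ZMod W)),
      (B2 (H i) (vq (q i) n) (vq (q i) m) β - vv W ^ 2 * S i) ^ 2 ≤
      (ε₂ * vv W ^ 2 * S i) ^ 2 *
        (Us (ev (q i) (n : ZMod W)) (ev (q i) (m : ZMod W))).card) :
    ∑ b : Fin K → ZMod W, w2p q (n : ZMod W) (m : ZMod W) b *
      ∏ i, (B2 (H i) (vq (q i) n) (vq (q i) m) (b i) / vv W ^ 2) ≤
      (1 + ε₂ * √(CC C W)) ^ K * (T ^ K * ws q (n : ZMod W) (m : ZMod W)) := by
  have hv : (0 : ℝ) < vv W := lt_of_lt_of_le one_pos one_le_vv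
  have hvS : ∀ i, 0 < vv W ^ 2 * S i := fun i => mul_pos (by positivity) (hS i)
  have h1 := hL W hW K q hq (n : ZMod W) (m : ZMod W)
    (fun i β => B2 (H i) (vq (q i) n) (vq (q i) m) β / (vv W ^ 2 * S i) - 1) ε₂ hε
    (fun i β _ => by
      have : 0 ≤ B2 (H i) (vq (q i) n) (vq (q i) m) β / (vv W ^ 2 * S i) := div_nonneg (B2_nonneg _ _ _ _) (hvS i).le
      linarith) (by
      intro i
      have e1 : ∀ β : ZMod W, (B2 (H i) (vq (q i) n) (vq (q i) m) β / (vv W ^ 2 * S i) - 1) ^ 2 =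
          (B2 (H i) (vq (q i) n) (vq (q i) m) β - vv W ^ 2 * S i) ^ 2 / (vv W ^ 2 * S i) ^ 2 := by
        intro β
        rw [← div_pow, sub_div, div_self (hvS i).ne']
      simp only [e1]
      rw [← Finset.sum_div, div_le_iff₀ (by have := hvS i; positivity)]
      refine (h i).trans (le_of_eq ?_)
      ring)
  have e2 : ∀ b : Fin K → ZMod W, w2p q (n : ZMod W) (m : ZMod W) b *
      ∏ i, (B2 (H i) (vq (q i) n) (vq (q i) m) (b i) / vv W ^ 2) =
      (∏ i, S i) * (w2p q (n : ZMod W) (m : ZMod W) b *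
        ∏ i, (1 + (B2 (H i) (vq (q i) n) (vq (q i) m) (b i) / (vv W ^ 2 * S i) - 1))) := by
    intro b
    have e3 : ∀ i, B2 (H i) (vq (q i) n) (vq (q i) m) (b i) / vv W ^ 2 =
        S i * (1 + (B2 (H i) (vq (q i) n) (vq (q i) m) (b i) / (vv W ^ 2 * S i) - 1)) := by
      intro i
      have := (hS i).ne'
      field_simp
      ring
    rw [Finset.prod_congr rfl fun i _ => e3 i, Finset.prod_mul_distrib]
    ring
  simp only [e2, ← Finset.mul_sum]
  have hST' : ∏ i, S i ≤ T ^ K := by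
    calc ∏ i, S i ≤ ∏ _i : Fin K, T := Finset.prod_le_prod (fun i _ => (hS i).le) fun i _ => hST i
      _ = T ^ K := by simp
  have hws := ws_nonneg q (n : ZMod W) (m : ZMod W)
  have hr0 : 0 ≤ (1 + ε₂ * √(CC C W)) ^ K := by positivity
  calc (∏ i, S i) * ∑ b : Fin K → ZMod W, w2p q (n : ZMod W) (m : ZMod W) b *
        ∏ i, (1 + (B2 (H i) (vq (q i) n) (vq (q i) m) (b i) / (vv W ^ 2 * S i) - 1))
      ≤ (∏ i, S i) * ((1 + ε₂ * √(CC C W)) ^ K * ws q (n : ZMod W) (m : ZMod W)) :=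
        mul_le_mul_of_nonneg_left h1 (Finset.prod_nonneg fun i _ => (hS i).le)
    _ ≤ T ^ K * ((1 + ε₂ * √(CC C W)) ^ K * ws q (n : ZMod W) (m : ZMod W)) :=
        mul_le_mul_of_nonneg_right hST' (mul_nonneg hr0 hws)
    _ = _ := by ring

end

end Mom2

open Mom2 in
/-- job MOM2P -/
theorem t_MOM2P : S_MOM2P := by
  classical
  intro d C hC hL hU W _ Y K H q ε₂ C₀ D₀ H₀ e₂ S T E hW hWX hWH hq hsq hpos hε hC₀ hD₀ hH he₂ hS hT hST H2 H2' H3 H4
    hwt HS HE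
  have hWp : 0 < W := Nat.pos_of_ne_zero (NeZero.ne W)
  have hXp : 0 < Y := lt_of_lt_of_le hWp hWX
  have hWr : (0 : ℝ) < W := by exact_mod_cast hWp
  have hXr : (0 : ℝ) < Y := by exact_mod_cast hXp
  have hφ : (0 : ℝ) < Nat.totient W := by exact_mod_cast Nat.totient_pos.2 hWp
  have hv : (1 : ℝ) ≤ vv W := one_le_vv
  have hv0 : (0 : ℝ) < vv W := lt_of_lt_of_le one_pos hv
  have hv2 : (1 : ℝ) ≤ vv W ^ 2 := one_le_pow₀ hv
  set A : ℝ := ((AdP W q).card : ℝ) with hA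
  have hA0 : 0 ≤ A := Nat.cast_nonneg _
  set r : ℝ := (1 + ε₂ * √(CC C W)) ^ K with hr
  have hr0 : 0 ≤ r := by rw [hr]; positivity
  set L : ℝ := 2 * Real.log Y with hLdef
  have hLn : 0 ≤ L := by
    rw [hLdef]
    exact mul_nonneg (by norm_num) (Real.log_natCast_nonneg _)
  set Q : ℕ → ℕ → ℝ := fun n m => ∑ b : Fin K → ZMod W, w2p q (n : ZMod W) (m : ZMod W) b *
    ∏ i, (B2 (H i) (vq (q i) n) (vq (q i) m) (b i) / vv W ^ 2) with hQ
  -- reduction
  have h1 : ∑ b ∈ AdP W q, (∑ s ∈ SbQ H b, (wcP Y q s / MbP Y q b) ^ 2) / (SbQ H b).card ≤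
      ((W : ℝ) / (Y * vv W)) ^ 2 * ∑ n ∈ Ioc Y (2 * Y), ∑ m ∈ Ioc Y (2 * Y),
        wt n * wt m * Q n m := by
    have e1 : ∀ b : Fin K → ZMod W,
        (∑ s ∈ SbQ H b, (wcP Y q s / MbP Y q b) ^ 2) / (SbQ H b).card =
        ∑ n ∈ Ioc Y (2 * Y), ∑ m ∈ Ioc Y (2 * Y),
          (wt n * wt m * ∏ i, B2 (H i) (vq (q i) n) (vq (q i) m) (b i)) / MbP Y q b ^ 2 := by
      intro b
      simp only [div_pow, ← Finset.sum_div]
      rw [div_right_comm, sq_sum]
    have e2 : ∀ b : Fin K → ZMod W, ∑ n ∈ Ioc Y (2 * Y), ∑ m ∈ Ioc Y (2 * Y),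
        (wt n * wt m * ∏ i, B2 (H i) (vq (q i) n) (vq (q i) m) (b i)) / MbP Y q b ^ 2 =
        ∑ n ∈ Ioc Y (2 * Y), ∑ m ∈ Ioc Y (2 * Y),
        ((W : ℝ) / (Y * vv W)) ^ 2 * (wt n * wt m * (w2p q (n : ZMod W) (m : ZMod W) b *
          ∏ i, (B2 (H i) (vq (q i) n) (vq (q i) m) (b i) / vv W ^ 2))) := by
      intro b
      refine Finset.sum_congr rfl fun n hn => Finset.sum_congr rfl fun m hm => ?_
      exact term_eq hXp hWX H hn hm q b fun i β hβ => H2' i n hn m hm β hβ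
    simp only [e1, e2]
    rw [Finset.sum_comm, Finset.mul_sum]
    refine Finset.sum_le_sum fun n _ => ?_
    rw [Finset.sum_comm, Finset.mul_sum]
    refine Finset.sum_le_sum fun m _ => ?_
    rw [← Finset.mul_sum, ← Finset.mul_sum]
    refine mul_le_mul_of_nonneg_left (mul_le_mul_of_nonneg_left ?_
      (mul_nonneg (wt_nonneg _) (wt_nonneg _))) (sq_nonneg _)
    refine Finset.sum_le_sum_of_subset_of_nonneg (Finset.subset_univ _) fun b _ _ => ?_
    exact mul_nonneg (w2p_nonneg _ _ _ _) (Finset.prod_nonneg fun i _ =>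
      div_nonneg (B2_nonneg _ _ _ _) (sq_nonneg _))
  -- bound of the terms
  have h2 : ∀ n ∈ Ioc Y (2 * Y), ∀ m ∈ Ioc Y (2 * Y), wt n * wt m * Q n m ≤
      (if m ≠ n then r * (wt n * wt m * T n m ^ K * ws q (n : ZMod W) (m : ZMod W)) else 0) +
      ((if (n, m) ∈ E ∧ m ≠ n then L ^ 2 * (C₀ ^ K * A) * T n m ^ K else 0) +
        (if m = n then L ^ 2 * (D₀ ^ K * A) else 0)) := by
    intro n hn m hm
    have q0 : 0 ≤ wt n * wt m := mul_nonneg (wt_nonneg _) (wt_nonneg _)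
    have q1 : wt n * wt m ≤ L ^ 2 := by
      rw [sq]
      exact mul_le_mul (hwt n hn) (hwt m hm) (wt_nonneg _) hLn
    have p1 : 0 ≤ r * (wt n * wt m * T n m ^ K * ws q (n : ZMod W) (m : ZMod W)) :=
      mul_nonneg hr0 (mul_nonneg (mul_nonneg q0 (pow_nonneg (hT n m) K)) (ws_nonneg _ _ _))
    by_cases hnm : m = n
    · subst hnm
      rw [if_neg (by simp), if_neg (by simp), if_pos rfl, zero_add, zero_add]
      have := Q_le hU H m m q hsq (m : ZMod W) (m : ZMod W) D₀ (fun _ => 1) 1 hD₀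
        (fun _ => zero_le_one) (fun _ => le_rfl) (fun i β => by
          rw [mul_one]
          exact (div_le_self (B2_nonneg _ _ _ _) hv2).trans (H4 i m hm β))
      rw [one_pow, mul_one] at this
      calc wt m * wt m * Q m m ≤ wt m * wt m * (D₀ ^ K * A) := mul_le_mul_of_nonneg_left this q0
        _ ≤ L ^ 2 * (D₀ ^ K * A) :=
          mul_le_mul_of_nonneg_right q1 (mul_nonneg (pow_nonneg hD₀ K) hA0)
    · rw [if_pos hnm, if_neg hnm, add_zero]
      by_cases hE : (n, m) ∈ E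
      · rw [if_pos ⟨hE, hnm⟩]
        have := Q_le hU H n m q hsq (n : ZMod W) (m : ZMod W) C₀ (fun i => S i n m) (T n m) hC₀
          (fun i => (hS i n m).le) (fun i => hST i n hn m hm (Ne.symm hnm)) (fun i β => by
          rw [div_le_iff₀ (by positivity)]
          refine (H3 i n hn m hm (Ne.symm hnm) β).trans (le_of_eq ?_)
          ring)
        have h5 : wt n * wt m * Q n m ≤ L ^ 2 * (C₀ ^ K * A) * T n m ^ K := by
          calc wt n * wt m * Q n m ≤ wt n * wt m * (C₀ ^ K * T n m ^ K * A) :=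
                mul_le_mul_of_nonneg_left this q0
            _ ≤ L ^ 2 * (C₀ ^ K * T n m ^ K * A) := mul_le_mul_of_nonneg_right q1
                (mul_nonneg (mul_nonneg (pow_nonneg hC₀ K) (pow_nonneg (hT n m) K)) hA0)
            _ = _ := by ring
        linarith
      · rw [if_neg (by tauto), add_zero]
        have := Q_le' hL hW H q hq n m (fun i => S i n m) (T n m) ε₂ (fun i => hS i n m)
          (fun i => hST i n hn m hm (Ne.symm hnm)) hε
          (fun i => H2 i n hn m hm (Ne.symm hnm) hE)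
        calc wt n * wt m * Q n m
            ≤ wt n * wt m * (r * (T n m ^ K * ws q (n : ZMod W) (m : ZMod W))) :=
              mul_le_mul_of_nonneg_left this q0
          _ = _ := by ring
  -- the three sums
  have h3 : ∑ n ∈ Ioc Y (2 * Y), ∑ m ∈ Ioc Y (2 * Y), wt n * wt m * Q n m ≤
      r * (((Y : ℝ) / Nat.totient W) ^ 2 * (1 + H₀) * A) +
        (L ^ 2 * (C₀ ^ K * A) * (e₂ * (Y : ℝ) ^ 2) + Y * (L ^ 2 * (D₀ ^ K * A))) := by
    refine (Finset.sum_le_sum fun n hn => Finset.sum_le_sum fun m hm => h2 n hn m hm).trans ?_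
    simp only [Finset.sum_add_distrib]
    refine add_le_add ?_ (add_le_add ?_ ?_)
    · have := HS (ws q) (ws_nonneg q) (fun t c d => (hU W K q hsq).2.1 t c d)
      have e0 : ∑ c ∈ uni W, ∑ d ∈ uni W, ws q c d = A := (hU W K q hsq).2.2.2.1
      rw [e0] at this
      have e1 : ∑ n ∈ Ioc Y (2 * Y), ∑ m ∈ Ioc Y (2 * Y),
          (if m ≠ n then r * (wt n * wt m * T n m ^ K * ws q (n : ZMod W) (m : ZMod W)) else 0) =
          r * ∑ n ∈ Ioc Y (2 * Y), ∑ m ∈ (Ioc Y (2 * Y)).filter (fun m => m ≠ n),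
            wt n * wt m * T n m ^ K * ws q (n : ZMod W) (m : ZMod W) := by
        simp only [Finset.mul_sum, Finset.sum_filter, mul_ite, mul_zero]
      rw [e1]
      exact mul_le_mul_of_nonneg_left this hr0
    · have e1 : ∑ n ∈ Ioc Y (2 * Y), ∑ m ∈ Ioc Y (2 * Y),
          (if (n, m) ∈ E ∧ m ≠ n then L ^ 2 * (C₀ ^ K * A) * T n m ^ K else 0) =
          L ^ 2 * (C₀ ^ K * A) * ∑ x ∈ E.filter (fun x => x.1 ∈ Ioc Y (2 * Y) ∧
            x.2 ∈ Ioc Y (2 * Y) ∧ x.1 ≠ x.2), T x.1 x.2 ^ K := by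
        rw [← Finset.sum_product', Finset.mul_sum, ← Finset.sum_filter]
        refine Finset.sum_congr ?_ fun q _ => rfl
        ext x
        simp only [Finset.mem_filter, Finset.mem_product, Prod.mk.eta]
        constructor
        · rintro ⟨⟨h1, h2⟩, h3, h4⟩
          exact ⟨h3, h1, h2, Ne.symm h4⟩
        · rintro ⟨h1, h2, h3, h4⟩
          exact ⟨⟨h2, h3⟩, h1, Ne.symm h4⟩
      rw [e1]
      exact mul_le_mul_of_nonneg_left HE
        (mul_nonneg (sq_nonneg _) (mul_nonneg (pow_nonneg hC₀ K) hA0))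
    · have e1 : ∀ n ∈ Ioc Y (2 * Y), ∑ m ∈ Ioc Y (2 * Y),
          (if m = n then L ^ 2 * (D₀ ^ K * A) else 0) = L ^ 2 * (D₀ ^ K * A) := by
        intro n hn
        rw [Finset.sum_ite_eq' (Ioc Y (2 * Y)) n, if_pos hn]
      rw [Finset.sum_congr rfl e1, Finset.sum_const, Nat.card_Ioc, nsmul_eq_mul]
      have : ((2 * Y - Y : ℕ) : ℝ) = Y := by
        congr 1
        omega
      rw [this]
  refine (h1.trans (mul_le_mul_of_nonneg_left h3 (sq_nonneg _))).trans ?_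
  have k1 : (W : ℝ) / (Y * vv W) = Nat.totient W / Y := by
    unfold vv
    field_simp
  have k2 : (W : ℝ) / (Y * vv W) ≤ W / Y := by
    apply div_le_div_of_nonneg_left hWr.le hXr
    nlinarith
  have k3 : ((W : ℝ) / (Y * vv W)) ^ 2 ≤ (W / Y) ^ 2 :=
    pow_le_pow_left₀ (by positivity) k2 2
  have k4 : 0 ≤ L ^ 2 * (C₀ ^ K * A) * (e₂ * (Y : ℝ) ^ 2) + Y * (L ^ 2 * (D₀ ^ K * A)) := by
    positivity
  rw [mul_add]
  have k5 : ((W : ℝ) / (Y * vv W)) ^ 2 * (r * (((Y : ℝ) / Nat.totient W) ^ 2 * (1 + H₀) * A)) =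
      r * (1 + H₀) * A := by
    rw [k1]
    field_simp
  rw [k5]
  have k6 := mul_le_mul_of_nonneg_right k3 k4
  refine (add_le_add le_rfl k6).trans (le_of_eq ?_)
  field_simp
  ring

end Pool.Agent.Q149.PQ
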